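import Pool.Agent.H24.Plt2

set_option autoImplicit false

namespace Pool.Agent.Results.MP_eef266_lc.PolyTime
open Pool.Agent.H11.PT Pool.Agent.H24.Plt

theorem result : ∃ V : ℕ × List (ℕ × ℕ) → Bool, PolyTime bits (fun b => [b]) V ∧
    ∀ y, (gr y.1 y.2).IsTree → (PathLike (gr y.1 y.2) ↔ V y = true) := by
  obtain ⟨V, h1, h2⟩ := PT.inP (L := fun y => alg y = true) pt_alg fun _ => Iff.rfl
  exact ⟨V, h1, fun y hy => (main y hy).trans (h2 y)⟩

end Pool.Agent.Results.MP_eef266_lc.PolyTime
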